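import Pool.Agent.N343.AS.Stm

/-!
Project AS (helper343), leaf RES: infinitely many digits in an interval is a generic property.
-/

set_option autoImplicit false

open Filter Topology

namespace Pool.Agent.N558.AS

open Pool.Agent.N343.AS

theorem main : S_RES := by
  intro e he u v hu huv hv
  have hset : {x : ℝ | ∃ᶠ N in atTop, Int.fract (x * 2 ^ (e N)) ∈ Set.Ioo u v} =
      ⋂ n : ℕ, ⋃ N : ℕ, ⋃ _ : n ≤ N, {x : ℝ | Int.fract (x * 2 ^ (e N)) ∈ Set.Ioo u v} := by
    ext x
    simp only [Set.mem_setOf_eq, frequently_atTop, Set.mem_iInter, Set.mem_iUnion, exists_prop,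
      ge_iff_le]
  rw [hset]
  refine countable_iInter_mem.2 fun n => residual_of_dense_open ?_ ?_
  · refine isOpen_iUnion fun N => isOpen_iUnion fun _ => ?_
    have h1 : {x : ℝ | Int.fract (x * 2 ^ (e N)) ∈ Set.Ioo u v} =
        ⋃ k : ℤ, {x : ℝ | (k : ℝ) + u < x * 2 ^ (e N) ∧ x * 2 ^ (e N) < k + v} := by
      ext x
      simp only [Set.mem_setOf_eq, Set.mem_iUnion, Set.mem_Ioo]
      constructor
      · rintro ⟨h1, h2⟩
        refine ⟨⌊x * 2 ^ (e N)⌋, ?_, ?_⟩
        · have := Int.floor_add_fract (x * 2 ^ (e N))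
          linarith
        · have := Int.floor_add_fract (x * 2 ^ (e N))
          linarith
      · rintro ⟨k, h1, h2⟩
        have h3 : ⌊x * 2 ^ (e N)⌋ = k := by
          rw [Int.floor_eq_iff]
          constructor <;> linarith
        have := Int.floor_add_fract (x * 2 ^ (e N))
        rw [h3] at this
        constructor <;> linarith
    rw [h1]
    refine isOpen_iUnion fun k => ?_
    have hc : Continuous (fun x : ℝ => x * 2 ^ (e N)) := continuous_id.mul continuous_const
    exact (isOpen_lt continuous_const hc).inter (isOpen_lt hc continuous_const)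
  · rw [Metric.dense_iff]
    intro x r hr
    obtain ⟨N, hN⟩ : ∃ N : ℕ, n ≤ N ∧ (1 / 2 : ℝ) ^ N < r := by
      obtain ⟨N₀, hN₀⟩ := exists_pow_lt_of_lt_one hr (by norm_num : (1 / 2 : ℝ) < 1)
      refine ⟨max n N₀, le_max_left _ _, lt_of_le_of_lt ?_ hN₀⟩
      exact pow_le_pow_of_le_one (by norm_num) (by norm_num) (le_max_right _ _)
    have hpos : (0 : ℝ) < 2 ^ (e N) := by positivity
    set y := x * 2 ^ (e N) with hy
    have hfl := Int.floor_add_fract y
    have hf0 := Int.fract_nonneg y
    have hf1 := Int.fract_lt_one y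
    refine ⟨((⌊y⌋ : ℝ) + (u + v) / 2) / 2 ^ (e N), ?_, ?_⟩
    · rw [Metric.mem_ball, Real.dist_eq]
      have e1 : ((⌊y⌋ : ℝ) + (u + v) / 2) / 2 ^ (e N) - x =
          ((u + v) / 2 - Int.fract y) / 2 ^ (e N) := by
        have e2 : x = y / 2 ^ (e N) := by
          rw [hy]
          field_simp
        rw [e2, ← sub_div]
        congr 1
        have e3 : y / 2 ^ (e N) * 2 ^ (e N) = y := div_mul_cancel₀ _ hpos.ne'
        linarith
      rw [e1, abs_div, abs_of_pos hpos, div_lt_iff₀ hpos]
      have h3 : |(u + v) / 2 - Int.fract y| < 1 := by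
        rw [abs_lt]
        constructor <;> linarith
      have h4 : (1 / 2 : ℝ) ^ (e N) ≤ (1 / 2) ^ N :=
        pow_le_pow_of_le_one (by norm_num) (by norm_num) (he.id_le N)
      have h5 : (1 / 2 : ℝ) ^ (e N) * 2 ^ (e N) = 1 := by
        rw [← mul_pow]
        norm_num
      have h6 : 1 < r * 2 ^ (e N) := by
        rw [← h5]
        exact mul_lt_mul_of_pos_right (lt_of_le_of_lt h4 hN.2) hpos
      linarith
    · simp only [Set.mem_iUnion, Set.mem_setOf_eq, exists_prop]
      refine ⟨N, hN.1, ?_⟩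
      rw [div_mul_cancel₀ _ hpos.ne', Int.fract_intCast_add]
      have h7 : Int.fract ((u + v) / 2) = (u + v) / 2 :=
        Int.fract_eq_self.2 ⟨by linarith, by linarith⟩
      rw [h7]
      constructor <;> linarith

end Pool.Agent.N558.AS
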